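import Pool.Agent.Run7.h314.LK.Iface

/-! Piece COMP of project LK (MP_e3ee0c_gt): the Haar average of an inner product. -/

set_option autoImplicit false
set_option linter.unusedSectionVars false

namespace Pool.Agent.Run7.h957.LK

open Topology Filter Pool.Agent.Run7.h314.LK Pool.Agent.N696.LI MeasureTheory

/-- A skew map for a positive definite symmetric form has negative trace form. -/
theorem trace_neg_of_skew {V : Type} [AddCommGroup V] [Module ℝ V] [FiniteDimensional ℝ V]
    (B : LinearMap.BilinForm ℝ V) (hs : ∀ x y, B x y = B y x) (hp : ∀ x, x ≠ 0 → 0 < B x x)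
    (T : V →ₗ[ℝ] V) (hT : ∀ x y, B (T x) y + B x (T y) = 0) :
    T = 0 ∨ LinearMap.trace ℝ V (T ∘ₗ T) < 0 := by
  obtain ⟨v, hv⟩ := LinearMap.BilinForm.exists_orthogonal_basis (B := B) ⟨fun x y => by
    simpa using hs x y⟩
  rw [LinearMap.isOrthoᵢ_def] at hv
  have hvp : ∀ i, 0 < B (v i) (v i) := fun i => hp _ (v.ne_zero i)
  have hrepr : ∀ w i, v.repr w i = B w (v i) / B (v i) (v i) := by
    intro w i
    have e : B w (v i) = v.repr w i * B (v i) (v i) := by
      conv_lhs => rw [← v.sum_repr w]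
      rw [map_sum, LinearMap.sum_apply, Finset.sum_eq_single i]
      · simp
      · intro j _ hj
        simp [hv j i hj]
      · intro h
        exact absurd (Finset.mem_univ i) h
    rw [e, mul_div_assoc, div_self (hvp i).ne', mul_one]
  have htr : LinearMap.trace ℝ V (T ∘ₗ T) = - ∑ i, B (T (v i)) (T (v i)) / B (v i) (v i) := by
    rw [LinearMap.trace_eq_matrix_trace ℝ v, Matrix.trace, ← Finset.sum_neg_distrib]
    refine Finset.sum_congr rfl fun i _ => ?_
    rw [Matrix.diag_apply, LinearMap.toMatrix_apply, LinearMap.comp_apply, hrepr]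
    have := hT (T (v i)) (v i)
    rw [← neg_div]
    congr 1
    linarith
  by_cases h0 : T = 0
  · exact Or.inl h0
  · right
    rw [htr, neg_lt_zero]
    have hnn : ∀ i, 0 ≤ B (T (v i)) (T (v i)) / B (v i) (v i) := by
      intro i
      refine div_nonneg ?_ (hvp i).le
      by_cases h : T (v i) = 0
      · simp [h]
      · exact (hp _ h).le
    have hex : ∃ i, T (v i) ≠ 0 := by
      by_contra hc
      push Not at hc
      exact h0 (v.ext fun i => by simpa using hc i)
    obtain ⟨i, hi⟩ := hex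
    exact Finset.sum_pos' (fun j _ => hnn j) ⟨i, Finset.mem_univ i, div_pos (hp _ hi) (hvp i)⟩

section Avg

variable {A : Type} [NormedRing A] [NormedAlgebra ℝ A] [FiniteDimensional ℝ A]

/-- The integrand. -/
noncomputable def fint {ι : Type} [Fintype ι] (e : Module.Basis ι ℝ A) (H : Subgroup Aˣ)
    (Y Z : A) (h : H) : ℝ :=
  ∑ i, e.repr (cj ((h⁻¹ : H) : Aˣ) Y) i * e.repr (cj ((h⁻¹ : H) : Aˣ) Z) i

theorem continuous_fint {ι : Type} [Fintype ι] (e : Module.Basis ι ℝ A) (H : Subgroup Aˣ)
    (Y Z : A) : Continuous (fint e H Y Z) := by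
  have h1 : ∀ Y : A, Continuous fun h : H => cj ((h⁻¹ : H) : Aˣ) Y := by
    intro Y
    have a1 : Continuous fun h : H => ((((h⁻¹ : H) : Aˣ)) : A) :=
      Units.continuous_val.comp (continuous_subtype_val.comp continuous_inv)
    have a2 : Continuous fun h : H => (((((h⁻¹ : H) : Aˣ))⁻¹ : Aˣ) : A) :=
      Units.continuous_val.comp (continuous_inv.comp
        (continuous_subtype_val.comp continuous_inv))
    exact (a1.mul continuous_const).mul a2
  have h2 : ∀ i, Continuous fun x : A => e.repr x i := by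
    intro i
    exact (e.coord i).continuous_of_finiteDimensional
  unfold fint
  exact continuous_finsetSum _ fun i _ => ((h2 i).comp (h1 Y)).mul ((h2 i).comp (h1 Z))

theorem cj_add (g : Aˣ) (x y : A) : cj g (x + y) = cj g x + cj g y := by
  simp [cj, mul_add, add_mul]

theorem cj_smul (g : Aˣ) (c : ℝ) (x : A) : cj g (c • x) = c • cj g x := by
  simp [cj]

theorem cj_cj (g h : Aˣ) (x : A) : cj g (cj h x) = cj (g * h) x := by
  simp only [cj, mul_inv_rev, Units.val_mul]
  noncomm_ring

theorem cj_ne (g : Aˣ) {x : A} (hx : x ≠ 0) : cj g x ≠ 0 := by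
  intro h
  apply hx
  have : cj (g⁻¹ * g) x = 0 := by
    rw [← cj_cj, h]
    simp [cj]
  simpa [cj] using this

theorem exists_inv_form (H : Subgroup Aˣ) (hH : IsCompact (H : Set Aˣ)) :
    ∃ B : A →ₗ[ℝ] A →ₗ[ℝ] ℝ, (∀ x y, B x y = B y x) ∧ (∀ x, x ≠ 0 → 0 < B x x) ∧
      ∀ h ∈ H, ∀ x y, B (cj h x) (cj h y) = B x y := by
  classical
  let e := Module.finBasis ℝ A
  have hcs : CompactSpace H := isCompact_iff_compactSpace.1 hH
  let _ : MeasurableSpace H := borel H
  have : BorelSpace H := ⟨rfl⟩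
  let μ : Measure H := Measure.haar
  have hint : ∀ Y Z : A, Integrable (fint e H Y Z) μ := by
    intro Y Z
    exact (continuous_fint e H Y Z).integrable_of_hasCompactSupport
      (HasCompactSupport.of_compactSpace _)
  have hadd : ∀ Y Y' Z : A, fint e H (Y + Y') Z = fint e H Y Z + fint e H Y' Z := by
    intro Y Y' Z
    funext h
    simp [fint, cj_add, add_mul, Finset.sum_add_distrib]
  have hsmul : ∀ (c : ℝ) (Y Z : A), fint e H (c • Y) Z = c • fint e H Y Z := by
    intro c Y Z
    funext h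
    simp [fint, cj_smul, mul_assoc, Finset.mul_sum]
  have hsymm : ∀ Y Z : A, fint e H Y Z = fint e H Z Y := by
    intro Y Z
    funext h
    simp [fint, mul_comm]
  refine ⟨LinearMap.mk₂ ℝ (fun Y Z => ∫ h, fint e H Y Z h ∂μ) ?_ ?_ ?_ ?_, ?_, ?_, ?_⟩
  · intro Y Y' Z
    rw [hadd]
    exact integral_add (hint Y Z) (hint Y' Z)
  · intro c Y Z
    rw [hsmul]
    simp only [Pi.smul_apply]
    exact integral_smul c _
  · intro Y Z Z'
    rw [hsymm, hadd, hsymm Z, hsymm Z']
    exact integral_add (hint Y Z) (hint Y Z')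
  · intro c Y Z
    rw [hsymm, hsmul, hsymm Z]
    simp only [Pi.smul_apply]
    exact integral_smul c _
  · intro x y
    simp only [LinearMap.mk₂_apply]
    rw [hsymm]
  · intro x hx
    simp only [LinearMap.mk₂_apply]
    have hpos : ∀ h, 0 < fint e H x x h := by
      intro h
      unfold fint
      have hne : cj ((h⁻¹ : H) : Aˣ) x ≠ 0 := cj_ne _ hx
      have hex : ∃ i, e.repr (cj ((h⁻¹ : H) : Aˣ) x) i ≠ 0 := by
        by_contra hc
        push Not at hc
        apply hne
        apply e.repr.injective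
        ext i
        simpa using hc i
      obtain ⟨i, hi⟩ := hex
      exact Finset.sum_pos' (fun j _ => mul_self_nonneg _)
        ⟨i, Finset.mem_univ i, mul_self_pos.2 hi⟩
    exact (continuous_fint e H x x).integral_pos_of_hasCompactSupport_nonneg_nonzero
      (HasCompactSupport.of_compactSpace _) (fun h => (hpos h).le) (x := 1) (hpos 1).ne'
  · intro g hg x y
    simp only [LinearMap.mk₂_apply]
    have e1 : ∀ h : H, fint e H (cj g x) (cj g y) h = fint e H x y ((⟨g, hg⟩ : H)⁻¹ * h) := by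
      intro h
      have e2 : ∀ z : A, cj ((h⁻¹ : H) : Aˣ) (cj g z) =
          cj (((((⟨g, hg⟩ : H)⁻¹ * h)⁻¹ : H)) : Aˣ) z := by
        intro z
        rw [cj_cj]
        congr 1
      simp only [fint, e2]
    simp only [e1]
    exact integral_mul_left_eq_self (fun h => fint e H x y h) _

theorem skew_of_inv (B : A →ₗ[ℝ] A →ₗ[ℝ] ℝ) (H : Subgroup Aˣ)
    (hB : ∀ h ∈ H, ∀ x y, B (cj h x) (cj h y) = B x y) (X : A)
    (hX : ∀ t : ℝ, ∃ h ∈ H, (h : A) = NormedSpace.exp (t • X)) (x y : A) :
    B (br X x) y + B x (br X y) = 0 := by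
  have : CompleteSpace A := FiniteDimensional.complete ℝ A
  let _ : NormedAlgebra ℚ A := NormedAlgebra.restrictScalars ℚ ℝ A
  let Bc : A →L[ℝ] A →L[ℝ] ℝ :=
    (LinearMap.toContinuousLinearMap.toLinearMap ∘ₗ B).toContinuousLinearMap
  have hBc : ∀ u v, Bc u v = B u v := fun u v => rfl
  let c : A → ℝ → A := fun z t => NormedSpace.exp (t • X) * z * NormedSpace.exp (t • (-X))
  have hc : ∀ z, HasDerivAt (c z) (br X z) 0 := by
    intro z
    have h1 := hasDerivAt_exp_smul_const (𝕂 := ℝ) X (0 : ℝ)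
    have h2 := hasDerivAt_exp_smul_const (𝕂 := ℝ) (-X) (0 : ℝ)
    have h3 := (h1.mul_const z).mul h2
    have e : NormedSpace.exp ((0 : ℝ) • X) * X * z * NormedSpace.exp ((0 : ℝ) • (-X)) +
        NormedSpace.exp ((0 : ℝ) • X) * z * (NormedSpace.exp ((0 : ℝ) • (-X)) * (-X)) = br X z := by
      simp [br, sub_eq_add_neg]
    rw [e] at h3
    exact h3
  have hconst : ∀ t, Bc (c x t) (c y t) = B x y := by
    intro t
    obtain ⟨h, hh, he⟩ := hX t
    have hi : ((h⁻¹ : Aˣ) : A) = NormedSpace.exp (t • (-X)) := by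
      refine Units.inv_eq_of_mul_eq_one_right ?_
      rw [he, smul_neg]
      have := NormedSpace.exp_add_of_commute (x := t • X) (y := -(t • X))
        (Commute.neg_right (Commute.refl _))
      rw [← this, add_neg_cancel, NormedSpace.exp_zero]
    have e1 : ∀ z, c z t = cj h z := by
      intro z
      simp only [c, cj, he, hi]
    rw [hBc, e1, e1, hB h hh]
  have hd : HasDerivAt (fun t => Bc (c x t) (c y t)) (Bc (br X x) (c y 0) + Bc (c x 0) (br X y)) 0 :=
    ((Bc.hasFDerivAt (x := c x 0)).comp_hasDerivAt 0 (hc x)).clm_apply (hc y)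
  have hd0 : HasDerivAt (fun t => Bc (c x t) (c y t)) 0 0 := by
    simp only [hconst]
    exact hasDerivAt_const _ _
  have := hd.unique hd0
  have c0 : ∀ z, c z 0 = z := by
    intro z
    simp [c]
  rw [c0, c0] at this
  exact this

end Avg

theorem comp : S_comp := by
  intro A _ _ _ 𝔤 H hH _ X hX T hT
  obtain ⟨B, hs, hp, hinv⟩ := exists_inv_form H hH
  have hsk := skew_of_inv B H hinv X hX
  let B' : LinearMap.BilinForm ℝ 𝔤 := (B.domRestrict₁₂ 𝔤 𝔤)
  have hB' : ∀ x y : 𝔤, B' x y = B x y := fun x y => rfl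
  refine trace_neg_of_skew B' (fun x y => ?_) (fun x hx => ?_) T (fun x y => ?_)
  · rw [hB', hB', hs]
  · rw [hB']
    exact hp _ (by simpa using hx)
  · rw [hB', hB', hT, hT]
    exact hsk x y

end Pool.Agent.Run7.h957.LK
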