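import Pool.Agent.Run7.h314.LK.Iface
import Pool.Agent.Run7.h314.LJ.Fin
import Pool.Agent.Run7.h314.LJ.Clma
import Pool.Agent.N696.LI.P_HESS
import Pool.Agent.N696.LI.P_KER
import Pool.Agent.N353.LI.NOOP
import Pool.Agent.N424.LI.Minv
import Pool.Agent.N692.LI.OPEN
import Pool.Agent.N717.LI.Dc
import Pool.Agent.Run7.h81.LJ.TEN
import Pool.Agent.Run7.h81.LJ.PLU
import Pool.Agent.Run7.h81.LJ.UNIM
import Pool.Agent.Run7.h253.LJ.Skew
import Pool.Agent.Run7.h253.LJ.Har
import Pool.Agent.Run7.h324.LJ.Rho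
import Pool.Agent.Run7.h324.LJ.SocKill
import Pool.Agent.Run7.h324.LJ.Rat2
import Pool.Agent.Run7.h324.LJ.Met
import Pool.Agent.Run7.h324.LJ.Fis
import Pool.Agent.Run7.h437.LJ.Min
import Pool.Agent.Run7.h437.LJ.Frame

/-! Piece MINC of project LK (MP_e3ee0c_gt): the case without proper rational invariant
subspaces, for an abstract `LinGrp`. -/

set_option autoImplicit false
set_option linter.unusedSectionVars false

namespace Pool.Agent.Run7.h957.LK

open Topology Filter MvPolynomial Pool.Agent.N696.LI Pool.Agent.Run7.h314.LK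
open Pool.Agent.Run7.h314.LJ

section Minc

variable {m : ℕ} {F : Type} [NormedAddCommGroup F] [NormedSpace ℝ F] [FiniteDimensional ℝ F]

/-- The annihilator of a subspace. -/
def ann (S : Submodule ℝ (Fin m → ℝ)) : Submodule ℝ (Fin m → ℝ) where
  carrier := {x | ∀ s ∈ S, dotProduct s x = 0}
  add_mem' := by
    intro a b ha hb s hs
    rw [dotProduct_add, ha s hs, hb s hs, add_zero]
  zero_mem' := by intro s _; exact dotProduct_zero _
  smul_mem' := by
    intro r a ha s hs
    rw [dotProduct_smul, ha s hs, smul_zero]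

theorem mem_ann {S : Submodule ℝ (Fin m → ℝ)} {x : Fin m → ℝ} :
    x ∈ ann S ↔ ∀ s ∈ S, dotProduct s x = 0 := Iff.rfl

/-- The annihilator of a rational subspace is rational. -/
theorem ann_rat (hker : S_ker) (S : Submodule ℝ (Fin m → ℝ))
    (hrat : ∀ s ∈ S, s ∈ Submodule.span ℝ {y | y ∈ S ∧ ∃ z : Fin m → ℚ, y = fun i => (z i : ℝ)}) :
    ∀ x ∈ ann S, x ∈ Submodule.span ℝ
      {y | y ∈ ann S ∧ ∃ z : Fin m → ℚ, y = fun i => (z i : ℝ)} := by
  classical
  obtain ⟨f, hf1, hf2, -⟩ := Submodule.exists_fun_fin_finrank_span_eq ℝ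
    {y : Fin m → ℝ | y ∈ S ∧ ∃ z : Fin m → ℚ, y = fun i => (z i : ℝ)}
  have hspan : Submodule.span ℝ (Set.range f) = S := by
    rw [hf2]
    apply le_antisymm
    · rw [Submodule.span_le]; exact fun y hy => hy.1
    · exact hrat
  generalize hk : Module.finrank ℝ (Submodule.span ℝ
    {y : Fin m → ℝ | y ∈ S ∧ ∃ z : Fin m → ℚ, y = fun i => (z i : ℝ)}) = k at f hf1 hf2 hspan
  choose z hz using fun j => (hf1 j).2
  let Mq : Matrix (Fin k) (Fin m) ℚ := Matrix.of fun j i => z j i
  have hrow : ∀ x : Fin m → ℝ, (Mq.map (fun q : ℚ => (q : ℝ))).mulVec x = 0 ↔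
      ∀ s ∈ S, dotProduct s x = 0 := by
    intro x
    constructor
    · intro h s hs
      rw [← hspan] at hs
      induction hs using Submodule.span_induction with
      | mem s hs =>
        obtain ⟨j, rfl⟩ := hs
        have := congrFun h j
        rw [hz j]
        exact this
      | zero => exact zero_dotProduct _
      | add p q _ _ hp hq => rw [add_dotProduct, hp, hq, add_zero]
      | smul r p _ hp => rw [smul_dotProduct, hp, smul_zero]
    · intro h
      funext j
      have := h (f j) (hf1 j).1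
      rw [hz j] at this
      exact this
  intro x hx
  refine Submodule.span_mono ?_ (hker k m Mq x ((hrow x).2 hx))
  rintro _ ⟨z', hz', rfl⟩
  refine ⟨?_, z', rfl⟩
  rw [mem_ann, ← hrow]
  funext i
  have := congrFun hz' i
  simp only [Matrix.mulVec, dotProduct, Pi.zero_apply, Matrix.map_apply] at this ⊢
  exact_mod_cast this

/-- The generators. -/
noncomputable def XD (D : F →ₗ[ℝ] Mat m) : Fin (Module.finrank ℝ F) → Mat m :=
  fun i => D (Module.finBasis ℝ F i)

theorem lc_XD (D : F →ₗ[ℝ] Mat m) (x : Fin (Module.finrank ℝ F) → ℝ) :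
    lc (XD D) x = D (∑ i, x i • Module.finBasis ℝ F i) := by
  simp only [lc, XD, map_sum, map_smul]

theorem exists_lcD (D : F →ₗ[ℝ] Mat m) (X : F) : ∃ x, D X = lc (XD D) x := by
  refine ⟨fun i => (Module.finBasis ℝ F).repr X i, ?_⟩
  rw [lc_XD, (Module.finBasis ℝ F).sum_repr]

theorem eg_XD {D : F →ₗ[ℝ] Mat m} {G Γ : Subgroup (Mat m)ˣ} (hL : LinGrp D G Γ) :
    eg (XD D) = G := by
  apply le_antisymm
  · unfold eg
    rw [Subgroup.closure_le]
    rintro g ⟨x, hx⟩
    obtain ⟨g', hg', hx'⟩ := hL.exp_mem (∑ i, x i • Module.finBasis ℝ F i)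
    rw [lc_XD] at hx
    have : g = g' := Units.ext (by rw [hx, hx'])
    rw [this]
    exact hg'
  · refine hL.gen.trans ?_
    rw [Subgroup.closure_le]
    rintro g ⟨X, hX⟩
    obtain ⟨x, hx⟩ := exists_lcD D X
    exact Subgroup.subset_closure ⟨x, by rw [hX, hx]⟩

theorem minc_of (hker : S_ker) (hminv : S_minv) (hhess : S_hess) (hdc : S_dc) (hphi : S_phi)
    (hclma : S_clma) (hrho : S_rho) (hhar : S_har) (hsoc : S_soc) (hkill : S_kill)
    (hrat2 : S_rat2) (hmet : S_met) (hfis : S_fis) : S_minc := by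
  classical
  intro m F _ _ _ D G Γ d Q hL hQ hm hmin
  have heg := eg_XD hL
  set X := XD D with hX
  have hG : LG X Γ := by
    refine ⟨?_, hL.int, ?_⟩
    · rw [heg]; exact hL.le
    · rw [heg]; exact hL.cocompact
  obtain ⟨g, N, φ, hlim⟩ := hphi m _ X
  let S : Submodule ℝ (Fin m → ℝ) :=
    { carrier := {v | ∀ M, JJ Γ M → M.mulVec v = 0}
      add_mem' := by
        intro a b ha hb M hM
        rw [Matrix.mulVec_add, ha M hM, hb M hM, add_zero]
      zero_mem' := by intro M _; exact Matrix.mulVec_zero _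
      smul_mem' := by
        intro r a ha M hM
        rw [Matrix.mulVec_smul, ha M hM, smul_zero] }
  have hSm : ∀ s, s ∈ S ↔ ∀ M, JJ Γ M → M.mulVec s = 0 := fun s => Iff.rfl
  have hSinv : ∀ Y : F, ∀ s ∈ S, (D Y).mulVec s ∈ S := by
    intro Y s hs
    obtain ⟨x, hx⟩ := exists_lcD D Y
    rw [hx]
    have : (lc X x).mulVec s = ∑ i, x i • (X i).mulVec s := by
      rw [lc, Matrix.sum_mulVec]
      exact Finset.sum_congr rfl fun i _ => Matrix.smul_mulVec _ _ _
    rw [← hX, this]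
    refine Submodule.sum_mem _ fun i _ => Submodule.smul_mem _ _ ?_
    exact JJ_invariant hclma hrho hhar hkill hG hlim s hs i
  have hSrat : ∀ s ∈ S, s ∈ Submodule.span ℝ
      {y | y ∈ S ∧ ∃ z : Fin m → ℚ, y = fun i => (z i : ℝ)} := by
    intro s hs
    exact hrat2 m Γ hL.int s hs
  have hSbot : S ≠ ⊥ := by
    obtain ⟨s, hs0, hs⟩ := hsoc m Γ hm
    intro hbot
    apply hs0
    have : s ∈ S := hs
    rw [hbot, Submodule.mem_bot] at this
    exact this
  have hann : RatInv D (ann S) := by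
    refine ⟨?_, ann_rat hker S hSrat⟩
    intro Y x hx s hs
    rw [Matrix.dotProduct_mulVec, Matrix.vecMul_transpose]
    exact hx _ (hSinv Y s hs)
  have hStop : S = ⊤ := by
    rcases hmin _ hann with h | h
    · rw [eq_top_iff]
      rintro y -
      obtain ⟨e, he⟩ := surj_of_dot S.subtype (by
        intro x hx
        have : x ∈ ann S := fun s hs => hx ⟨s, hs⟩
        rw [h, Submodule.mem_bot] at this
        exact this) y
      rw [he]
      exact e.2
    · exfalso
      apply hSbot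
      rw [eq_bot_iff]
      intro s hs
      rw [Submodule.mem_bot]
      have h1 : s ∈ ann S := by rw [h]; trivial
      have h2 := h1 s hs
      exact dotProduct_self_eq_zero.1 h2
  have hmod : ∀ w, HMod X w := by
    intro w
    have hw : w ∈ S := by rw [hStop]; trivial
    exact hmod_of_JJ hclma hrho hhar hG hlim w hw
  obtain ⟨P, hP, hPX⟩ := hmet m _ X hmod
  have hPi : (P⁻¹).PosDef := hP.inv
  have hdet : IsUnit P.det := (Matrix.isUnit_iff_isUnit_det _).1 hP.isUnit
  have hfis' := hfis m _ X P hP hPX Q (by rw [heg]; exact hQ.inv)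
  rw [heg] at hfis'
  have key : ∀ g ∈ G, ∀ ν,
      eval (((P⁻¹)⁻¹ * (g : Mat m).transpose * P⁻¹).mulVec ν) Q = eval ν Q := by
    intro g hg ν
    rw [Matrix.nonsing_inv_nonsing_inv _ hdet]
    exact hfis' g hg ν
  have hD : ∀ ν, eval ν Q ≠ 0 → DCond D ν := by
    intro ν hν
    obtain ⟨g, hg, hreeb⟩ := hminv m F D G Γ d Q hL hQ (P⁻¹) hPi ν hν
    refine dCond_conj hL g hg ν ?_
    refine hhess m F D G d Q hQ hL.exp_mem (P⁻¹) hPi key _ ?_ hreeb
    rw [hQ.inv g hg]
    exact hν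
  exact hdc m F D G Γ d Q hL hQ hD

theorem minc : S_minc := by
  have hopen : S_open := Pool.Agent.N692.LI.s_open
  exact minc_of Ker.ker
    (Pool.Agent.N424.LI.minv hopen) Hess.hess (Pool.Agent.N717.LI.dc hopen)
    (Pool.Agent.Run7.h314.LJ.phi Pool.Agent.Run7.h437.LJ.min)
    (Pool.Agent.Run7.h314.LJ.clma Pool.Agent.Run7.h81.LJ.ten Pool.Agent.Run7.h81.LJ.plu
      Pool.Agent.Run7.h253.LJ.skew Pool.Agent.Run7.h437.LJ.frame Pool.Agent.Run7.h81.LJ.unim)
    Pool.Agent.Run7.h324.LJ.main_RHO Pool.Agent.Run7.h253.LJ.har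
    Pool.Agent.Run7.h324.LJ.main_SOC Pool.Agent.Run7.h324.LJ.main_KILL
    Pool.Agent.Run7.h324.LJ.main_RAT2 Pool.Agent.Run7.h324.LJ.main_MET
    Pool.Agent.Run7.h324.LJ.main_FIS

end Minc

end Pool.Agent.Run7.h957.LK
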