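import Pool.Agent.Run7.h314.LK.Iface

/-! Piece NDEG of project LK (MP_e3ee0c_gt): a compactness argument. -/

set_option autoImplicit false

namespace Pool.Agent.Run7.h957.LK

open Topology Filter Pool.Agent.Run7.h314.LK

theorem ndeg : S_ndeg := by
  intro n b B α ξ hb h h1 h2
  by_contra hcon
  push Not at hcon
  -- a normalised kernel vector for every s
  have hN : ∀ s : ℝ, ∃ p : (Fin n → ℝ) × ℝ, ‖p‖ = 1 ∧ dotProduct α p.1 = 0 ∧
      ∀ Z, dotProduct α (b p.1 Z) + s * B p.1 Z = p.2 * dotProduct α Z := by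
    intro s
    obtain ⟨X, a, hX, hZ, hne⟩ := hcon s
    have hp : ((X, a) : (Fin n → ℝ) × ℝ) ≠ 0 := by
      intro h0
      rw [Prod.mk_eq_zero] at h0
      exact hne h0.1 h0.2
    have hn : ‖((X, a) : (Fin n → ℝ) × ℝ)‖ ≠ 0 := norm_ne_zero_iff.2 hp
    set c := ‖((X, a) : (Fin n → ℝ) × ℝ)‖⁻¹ with hc
    refine ⟨c • (X, a), ?_, ?_, ?_⟩
    · rw [norm_smul, hc, norm_inv, norm_norm, inv_mul_cancel₀ hn]
    · simp [hX]
    · intro Z
      have := hZ Z
      simp only [Prod.smul_mk, map_smul, LinearMap.smul_apply, dotProduct_smul, smul_eq_mul]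
      linear_combination c * this
  choose p hp1 hp2 hp3 using hN
  have hcpt : IsCompact (Metric.sphere (0 : (Fin n → ℝ) × ℝ) 1) := isCompact_sphere _ _
  obtain ⟨q, hq, φ, hφ, hlim⟩ := hcpt.tendsto_subseq
    (x := fun k : ℕ => p (1 / ((k : ℝ) + 1))) (fun k => by simp [hp1])
  have hs : Tendsto (fun k : ℕ => 1 / (((φ k : ℕ) : ℝ) + 1)) atTop (𝓝 0) :=
    tendsto_one_div_add_atTop_nhds_zero_nat.comp hφ.tendsto_atTop
  have hl1 : Tendsto (fun k : ℕ => (p (1 / (((φ k : ℕ) : ℝ) + 1))).1) atTop (𝓝 q.1) :=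
    (continuous_fst.tendsto q).comp hlim
  have hl2 : Tendsto (fun k : ℕ => (p (1 / (((φ k : ℕ) : ℝ) + 1))).2) atTop (𝓝 q.2) :=
    (continuous_snd.tendsto q).comp hlim
  have hαc : Continuous fun X : Fin n → ℝ => dotProduct α X := by
    unfold dotProduct
    fun_prop
  have hbZ : ∀ Z, Continuous fun X : Fin n → ℝ => b X Z := fun Z =>
    (b.flip Z).continuous_of_finiteDimensional
  have hBZ : ∀ Z, Continuous fun X : Fin n → ℝ => B X Z := fun Z =>
    (B.flip Z).continuous_of_finiteDimensional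
  have hq1 : dotProduct α q.1 = 0 := by
    have := (hαc.tendsto q.1).comp hl1
    refine tendsto_nhds_unique this ?_
    simp only [Function.comp_def, hp2]
    exact tendsto_const_nhds
  have hq2 : ∀ Z, dotProduct α (b q.1 Z) = q.2 * dotProduct α Z := by
    intro Z
    have e1 : Tendsto (fun k : ℕ => dotProduct α (b (p (1 / (((φ k : ℕ) : ℝ) + 1))).1 Z) +
        1 / (((φ k : ℕ) : ℝ) + 1) * B (p (1 / (((φ k : ℕ) : ℝ) + 1))).1 Z) atTop
        (𝓝 (dotProduct α (b q.1 Z) + 0 * B q.1 Z)) :=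
      (((hαc.comp (hbZ Z)).tendsto q.1).comp hl1).add
        (hs.mul (((hBZ Z).tendsto q.1).comp hl1))
    have e2 : Tendsto (fun k : ℕ => (p (1 / (((φ k : ℕ) : ℝ) + 1))).2 * dotProduct α Z) atTop
        (𝓝 (q.2 * dotProduct α Z)) := hl2.mul tendsto_const_nhds
    simp only [hp3] at e1
    have := tendsto_nhds_unique e1 e2
    simpa using this
  have hq0 : q.2 = 0 := by
    have := hq2 ξ
    rw [hb, dotProduct_neg, h2, h1] at this
    linarith
  have hqne : q.1 ≠ 0 := by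
    intro h0
    have : q = 0 := Prod.ext h0 hq0
    rw [this] at hq
    simp at hq
  have hneg : B q.1 q.1 < 0 := h q.1 (fun Y => by rw [hq2, hq0, zero_mul]) hq1 hqne
  have hzero : ∀ k : ℕ, B (p (1 / (((φ k : ℕ) : ℝ) + 1))).1 q.1 = 0 := by
    intro k
    have e := hp3 (1 / (((φ k : ℕ) : ℝ) + 1)) q.1
    rw [hb, dotProduct_neg, hq2, hq0, hq1] at e
    have hk : (1 / (((φ k : ℕ) : ℝ) + 1)) ≠ 0 := by positivity
    rw [zero_mul, neg_zero, zero_add, mul_zero] at e
    exact (mul_eq_zero.1 e).resolve_left hk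
  have : B q.1 q.1 = 0 := by
    have e1 := ((hBZ q.1).tendsto q.1).comp hl1
    refine tendsto_nhds_unique e1 ?_
    simp only [Function.comp_def, hzero]
    exact tendsto_const_nhds
  linarith

end Pool.Agent.Run7.h957.LK
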