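import Pool.Agent.Run7.h314.LK.Iface

/-! Piece NEG of project LK (MP_e3ee0c_gt): a compactness argument. -/

set_option autoImplicit false

namespace Pool.Agent.Run7.h957.LK

open Topology Filter Pool.Agent.Run7.h314.LK

theorem neg : S_neg := by
  intro n b B α h
  -- continuity of the maps
  have hbc : Continuous fun p : (Fin n → ℝ) × (Fin n → ℝ) => b p.1 p.2 := by
    have h1 : Continuous fun p : (Fin n → ℝ) × (Fin n → ℝ) =>
        (LinearMap.toContinuousLinearMap.toLinearMap ∘ₗ b).toContinuousLinearMap p.1 p.2 := by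
      fun_prop
    exact h1
  have hBc : Continuous fun p : (Fin n → ℝ) × (Fin n → ℝ) => B p.1 p.2 := by
    have h1 : Continuous fun p : (Fin n → ℝ) × (Fin n → ℝ) =>
        (LinearMap.toContinuousLinearMap.toLinearMap ∘ₗ B).toContinuousLinearMap p.1 p.2 := by
      fun_prop
    exact h1
  let S : Set ((Fin n → ℝ) × Metric.sphere (0 : Fin n → ℝ) 1) :=
    {p | (∀ Y, dotProduct p.1 (b (p.2 : Fin n → ℝ) Y) = 0) ∧
      dotProduct p.1 (p.2 : Fin n → ℝ) = 0 ∧ 0 ≤ B (p.2 : Fin n → ℝ) (p.2 : Fin n → ℝ)}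
  have hS : IsClosed S := by
    have e : S = (⋂ Y, {p : (Fin n → ℝ) × Metric.sphere (0 : Fin n → ℝ) 1 |
        dotProduct p.1 (b (p.2 : Fin n → ℝ) Y) = 0}) ∩
        ({p | dotProduct p.1 (p.2 : Fin n → ℝ) = 0} ∩
          {p | 0 ≤ B (p.2 : Fin n → ℝ) (p.2 : Fin n → ℝ)}) := by
      ext p
      simp [S]
    rw [e]
    have hd : Continuous fun p : (Fin n → ℝ) × (Fin n → ℝ) => dotProduct p.1 p.2 := by
      unfold dotProduct
      fun_prop
    refine IsClosed.inter (isClosed_iInter fun Y => ?_) (IsClosed.inter ?_ ?_)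
    · refine isClosed_eq ?_ continuous_const
      have h2 : Continuous fun p : (Fin n → ℝ) × Metric.sphere (0 : Fin n → ℝ) 1 =>
          b (p.2 : Fin n → ℝ) Y := hbc.comp ((continuous_subtype_val.comp continuous_snd).prodMk
            continuous_const)
      exact hd.comp (continuous_fst.prodMk h2)
    · exact isClosed_eq (hd.comp (continuous_fst.prodMk
        (continuous_subtype_val.comp continuous_snd))) continuous_const
    · refine isClosed_le continuous_const ?_
      exact hBc.comp ((continuous_subtype_val.comp continuous_snd).prodMk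
        (continuous_subtype_val.comp continuous_snd))
  have hcp : CompactSpace (Metric.sphere (0 : Fin n → ℝ) 1) :=
    isCompact_iff_compactSpace.1 (isCompact_sphere _ _)
  have hP : IsClosed (Prod.fst '' S) := isClosedMap_fst_of_compactSpace _ hS
  have hα : α ∉ Prod.fst '' S := by
    rintro ⟨⟨β, X⟩, ⟨h1, h2, h3⟩, rfl⟩
    have hX : (X : Fin n → ℝ) ≠ 0 := by
      intro h0
      have := X.2
      rw [h0] at this
      simp at this
    exact absurd h3 (not_le.2 (h X h1 h2 hX))
  refine ⟨(Prod.fst '' S)ᶜ, hP.isOpen_compl.mem_nhds hα, ?_⟩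
  intro β hβ X h1 h2 hX
  by_contra hneg
  push Not at hneg
  apply hβ
  have hn : ‖X‖ ≠ 0 := norm_ne_zero_iff.2 hX
  refine ⟨(β, ⟨‖X‖⁻¹ • X, ?_⟩), ⟨?_, ?_, ?_⟩, rfl⟩
  · rw [mem_sphere_zero_iff_norm, norm_smul, norm_inv, norm_norm, inv_mul_cancel₀ hn]
  · intro Y
    simp [h1]
  · simp [h2]
  · simp only [map_smul, LinearMap.smul_apply, smul_eq_mul]
    have h4 : 0 ≤ ‖X‖⁻¹ := inv_nonneg.2 (norm_nonneg _)
    positivity

end Pool.Agent.Run7.h957.LK
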