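import Pool.Agent.Run7.h957.LK.RED2
import Pool.Agent.N696.LI.P_POLY2
import Pool.Agent.N353.LI.NOOP
import Pool.Agent.N424.LI.Minv
import Pool.Agent.N692.LI.OPEN

/-! Piece RED of project LK (MP_e3ee0c_gt), part 3: the invariant polynomial factors through the
quotient; the reduction. -/

set_option autoImplicit false

namespace Pool.Agent.Run7.h957.LK

open Topology Filter MvPolynomial Pool.Agent.N696.LI Pool.Agent.Run7.h314.LK

variable {m k : ℕ}
variable {F : Type} [NormedAddCommGroup F] [NormedSpace ℝ F]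
variable {D : F →ₗ[ℝ] Mat m} {P : Matrix (Fin k) (Fin m) ℝ} {S : Matrix (Fin m) (Fin k) ℝ}

/-- The derivative of `Q` at a point where it does not vanish is a combination of the entries
of `P`. -/
theorem fderiv_ker [FiniteDimensional ℝ F] (hnoop : S_noop) (hI : Inter D P S)
    {G Γ : Subgroup (Mat m)ˣ} {d : ℕ} {Q : MvPolynomial (Fin m) ℝ}
    (hG : LinGrp D G Γ) (hL : LinGrp (DP D P S) (GP G P) (GP Γ P))
    (hQ : LinPoly D G d Q) (hk : 0 < k) (ν : Fin m → ℝ) (hν : eval ν Q ≠ 0) (η : Fin m → ℝ)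
    (hη : P.mulVec η = 0) : fderiv ℝ (fun x : Fin m → ℝ => eval x Q) ν η = 0 := by
  classical
  set Gf : (Fin m → ℝ) → ℝ := fun x => eval x Q with hGf
  have hGd : Differentiable ℝ Gf := Poly2.diff_eval Q
  set L := fderiv ℝ Gf ν with hL'
  have hLd : HasFDerivAt Gf L ν := (hGd _).hasFDerivAt
  -- the invariance
  have hLX : ∀ X, L ((D X).mulVec ν) = 0 := by
    intro X
    have h1 := Pool.Agent.N424.LI.exp_vec (D X) ν
    have h0 : (NormedSpace.exp ((0 : ℝ) • D X)).mulVec ν = ν := by
      rw [zero_smul, NormedSpace.exp_zero, Matrix.one_mulVec]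
    have h2 : HasFDerivAt Gf L ((NormedSpace.exp ((0 : ℝ) • D X)).mulVec ν) := by
      rw [h0]; exact hLd
    have h3 := h2.comp_hasDerivAt (0 : ℝ) h1
    have hconst : (Gf ∘ fun t : ℝ => (NormedSpace.exp (t • D X)).mulVec ν) = fun _ => Gf ν := by
      funext t
      obtain ⟨g, hg, hgX⟩ := hG.exp_mem (t • X)
      rw [map_smul] at hgX
      show eval ((NormedSpace.exp (t • D X)).mulVec ν) Q = eval ν Q
      rw [← hgX]
      exact hQ.inv g hg ν
    rw [hconst] at h3
    exact h3.unique (hasDerivAt_const _ _)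
  -- a vector orthogonal to the orbit of the quotient
  obtain ⟨x', hx', hx0⟩ : ∃ x' : Fin k → ℝ,
      (∀ X, dotProduct ((DP D P S X).mulVec (P.mulVec ν)) x' = 0) ∧ x' ≠ 0 := by
    by_contra hcon
    push Not at hcon
    let f : F →ₗ[ℝ] (Fin k → ℝ) :=
      { toFun := fun X => (DP D P S X).mulVec (P.mulVec ν)
        map_add' := by intro a b; rw [map_add, Matrix.add_mulVec]
        map_smul' := by intro a b; rw [map_smul, Matrix.smul_mulVec]; rfl }
    exact hnoop k F (DP D P S) (GP G P) (GP Γ P) hL hk (P.mulVec ν)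
      (surj_of_dot f fun x hx => hcon x hx)
  let ψ : (Fin m → ℝ) →ₗ[ℝ] ℝ :=
    { toFun := fun y => dotProduct (P.mulVec y) x'
      map_add' := by intro a b; rw [Matrix.mulVec_add, add_dotProduct]
      map_smul' := by intro a b; rw [Matrix.mulVec_smul, smul_dotProduct]; rfl }
  have hψ : ∀ y, ψ y = dotProduct (P.mulVec y) x' := fun y => rfl
  have hψX : ∀ X, ψ ((D X).mulVec ν) = 0 := by
    intro X
    rw [hψ, Matrix.mulVec_mulVec, hI.com' X, ← Matrix.mulVec_mulVec]
    exact hx' X
  have hψν : ψ ν ≠ 0 := by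
    intro h0
    obtain ⟨X, c, hy⟩ := hQ.good ν hν (S.mulVec x')
    have h1 : ψ (S.mulVec x') = 0 := by
      rw [hy, map_add, map_smul, hψX, h0, smul_zero, add_zero]
    rw [hψ, Matrix.mulVec_mulVec, hI.ps, Matrix.one_mulVec] at h1
    exact hx0 (dotProduct_self_eq_zero.1 h1)
  obtain ⟨X, c, hy⟩ := hQ.good ν hν η
  have h1 : ψ η = c * ψ ν := by
    rw [hy, map_add, map_smul, hψX, zero_add, smul_eq_mul]
  have h2 : ψ η = 0 := by
    rw [hψ, hη, zero_dotProduct]
  have hc : c = 0 := by
    rw [h2] at h1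
    rcases mul_eq_zero.1 h1.symm with h | h
    · exact h
    · exact absurd h hψν
  rw [hy, hc, zero_smul, add_zero]
  exact hLX X

theorem eval_add_ker [FiniteDimensional ℝ F] (hnoop : S_noop) (hI : Inter D P S)
    {G Γ : Subgroup (Mat m)ˣ} {d : ℕ} {Q : MvPolynomial (Fin m) ℝ}
    (hG : LinGrp D G Γ) (hL : LinGrp (DP D P S) (GP G P) (GP Γ P))
    (hQ : LinPoly D G d Q) (hk : 0 < k) (ν : Fin m → ℝ) (η : Fin m → ℝ)
    (hη : P.mulVec η = 0) : eval (ν + η) Q = eval ν Q := by
  set Gf : (Fin m → ℝ) → ℝ := fun x => eval x Q with hGf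
  have hGd : Differentiable ℝ Gf := Poly2.diff_eval Q
  set Fp : Polynomial ℝ := MvPolynomial.aeval
    (fun i => Polynomial.C (ν i) + Polynomial.X * Polynomial.C (η i)) Q with hF
  have hFe : ∀ t : ℝ, Fp.eval t = Gf (ν + t • η) := by
    intro t
    rw [hF, hGf]
    have h1 : (Polynomial.aeval t : Polynomial ℝ →ₐ[ℝ] ℝ).comp (MvPolynomial.aeval
        (fun i => Polynomial.C (ν i) + Polynomial.X * Polynomial.C (η i))) =
        MvPolynomial.aeval (ν + t • η) := by
      apply MvPolynomial.algHom_ext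
      intro i
      simp
      ring
    have h2 := congrArg (fun φ : MvPolynomial (Fin m) ℝ →ₐ[ℝ] ℝ => φ Q) h1
    simp only [AlgHom.comp_apply] at h2
    rw [← Polynomial.coe_aeval_eq_eval]
    rw [h2]
    rfl
  have key : ∀ t : ℝ, Fp.eval t ≠ 0 → Fp.derivative.eval t = 0 := by
    intro t ht
    rw [hFe] at ht
    have hLη := fderiv_ker hnoop hI hG hL hQ hk (ν + t • η) ht η hη
    have hline : HasDerivAt (fun u : ℝ => ν + u • η) η t := by
      have := ((hasDerivAt_id t).smul_const η).const_add ν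
      simpa using this
    have h3 : HasDerivAt (fun u : ℝ => Gf (ν + u • η)) (fderiv ℝ Gf (ν + t • η) η) t :=
      (hGd _).hasFDerivAt.comp_hasDerivAt t hline
    have h5 : HasDerivAt (fun u : ℝ => Fp.eval u) (Fp.derivative.eval t) t :=
      Polynomial.hasDerivAt Fp t
    have h6 : (fun u : ℝ => Fp.eval u) = fun u : ℝ => Gf (ν + u • η) := funext hFe
    rw [h6] at h5
    rw [h5.unique h3, hLη]
  have hprod : Fp * Fp.derivative = 0 := by
    apply Polynomial.funext
    intro t
    rw [Polynomial.eval_mul, Polynomial.eval_zero]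
    by_cases ht : Fp.eval t = 0
    · rw [ht, zero_mul]
    · rw [key t ht, mul_zero]
  have hcst : ∀ t : ℝ, Fp.eval t = Fp.eval 0 := by
    intro t
    rcases mul_eq_zero.1 hprod with h | h
    · rw [h, Polynomial.eval_zero, Polynomial.eval_zero]
    · have h1 := Polynomial.derivative_eq_zero.1 h
      rw [Polynomial.eq_C_of_natDegree_eq_zero h1, Polynomial.eval_C, Polynomial.eval_C]
  have h1 := hcst 1
  rw [hFe, hFe, one_smul, zero_smul, add_zero] at h1
  exact h1

/-- The polynomial on the quotient. -/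
noncomputable def QP (S : Matrix (Fin m) (Fin k) ℝ) (Q : MvPolynomial (Fin m) ℝ) :
    MvPolynomial (Fin k) ℝ :=
  MvPolynomial.aeval (fun i => ∑ j, C (S i j) * X j) Q

theorem eval_QP (S : Matrix (Fin m) (Fin k) ℝ) (Q : MvPolynomial (Fin m) ℝ) (ν : Fin k → ℝ) :
    eval ν (QP S Q) = eval (S.mulVec ν) Q := by
  have h1 : (MvPolynomial.aeval ν : MvPolynomial (Fin k) ℝ →ₐ[ℝ] ℝ).comp
      (MvPolynomial.aeval (fun i => ∑ j, C (S i j) * X j)) =
      (MvPolynomial.aeval (S.mulVec ν) : MvPolynomial (Fin m) ℝ →ₐ[ℝ] ℝ) := by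
    apply MvPolynomial.algHom_ext
    intro i
    rw [AlgHom.comp_apply, aeval_X, aeval_X]
    simp [Matrix.mulVec, dotProduct]
  have h2 := congrArg (fun φ : MvPolynomial (Fin m) ℝ →ₐ[ℝ] ℝ => φ Q) h1
  simp only [AlgHom.comp_apply] at h2
  exact h2

theorem QP_hom (S : Matrix (Fin m) (Fin k) ℝ) {Q : MvPolynomial (Fin m) ℝ} {d : ℕ}
    (hQ : Q.IsHomogeneous d) : (QP S Q).IsHomogeneous d := by
  have := hQ.aeval (fun i => ∑ j, C (S i j) * (X j : MvPolynomial (Fin k) ℝ)) (n := 1) (by
    intro i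
    refine MvPolynomial.IsHomogeneous.sum _ _ _ fun j _ => ?_
    have h1 := (isHomogeneous_C (Fin k) (S i j)).mul (isHomogeneous_X ℝ j)
    simpa using h1)
  rwa [one_mul] at this

theorem red_of (hnoop : S_noop) : S_red := by
  classical
  intro m F _ _ _ D G Γ d Q hG hQ u hu hne
  have hbas := exists_int_basis u hu.2
  have hkpos : 0 < Module.finrank ℝ u :=
    Nat.pos_of_ne_zero fun h0 => hne (Submodule.finrank_eq_zero.1 h0)
  generalize hk : Module.finrank ℝ u = k at hbas hkpos
  obtain ⟨N, hNi, hNu, hNs, hNz, hNl⟩ := hbas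
  -- the left inverse
  obtain ⟨M, hM⟩ : ∃ M : Matrix (Fin k) (Fin m) ℝ, M * N = 1 := by
    have hinj : Function.Injective N.mulVecLin := by
      rw [injective_iff_map_eq_zero]
      exact hNz
    obtain ⟨f, hf⟩ := N.mulVecLin.exists_leftInverse_of_injective (LinearMap.ker_eq_bot.2 hinj)
    refine ⟨LinearMap.toMatrix' f, ?_⟩
    have h1 : LinearMap.toMatrix' (f ∘ₗ N.mulVecLin) = LinearMap.toMatrix' f * N := by
      rw [LinearMap.toMatrix'_comp]
      congr 1
      rw [← Matrix.toLin'_apply', LinearMap.toMatrix'_toLin']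
    rw [← h1, hf, LinearMap.toMatrix'_id]
  have hMu : ∀ x ∈ u, N.mulVec (M.mulVec x) = x := by
    intro x hx
    obtain ⟨y, rfl⟩ := hNs x hx
    have h1 : M.mulVec (N.mulVec y) = y := by
      rw [Matrix.mulVec_mulVec, hM, Matrix.one_mulVec]
    rw [h1]
  -- `A` with transpose preserving `u`
  have hcom : ∀ A : Mat m, (∀ x ∈ u, A.transpose.mulVec x ∈ u) →
      N.transpose * A = N.transpose * A * M.transpose * N.transpose := by
    intro A hA
    have h1 : A.transpose * N = N * M * A.transpose * N := by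
      apply Matrix.ext_of_mulVec_single
      intro j
      have h2 := hMu _ (hA _ (hNu (Pi.single j 1)))
      simp only [Matrix.mulVec_mulVec] at h2
      rw [← h2]
      simp only [Matrix.mul_assoc]
    have h3 := congrArg Matrix.transpose h1
    simp only [Matrix.transpose_mul, Matrix.transpose_transpose] at h3
    simpa only [Matrix.mul_assoc] using h3
  have hI : Inter D N.transpose M.transpose :=
    ⟨by rw [← Matrix.transpose_mul, hM, Matrix.transpose_one], fun X => hcom _ (hu.1 X)⟩
  have hL : LinGrp (DP D N.transpose M.transpose) (GP G N.transpose) (GP Γ N.transpose) := by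
    refine linGrp_quot hI hG ?_
    intro A hA hA2 i j
    -- column `i` of the transpose
    have h1 : A.transpose * N = N * (N.transpose * A * M.transpose).transpose := by
      have h3 := congrArg Matrix.transpose hA2
      rw [Matrix.transpose_mul, Matrix.transpose_transpose, Matrix.transpose_mul,
        Matrix.transpose_transpose] at h3
      exact h3
    set B := (N.transpose * A * M.transpose) with hB
    obtain ⟨w, hw⟩ := hNl (B.transpose.mulVec (Pi.single i 1)) (by
      rw [Matrix.mulVec_mulVec, ← h1]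
      choose a ha using hA
      choose n hn using hNi
      refine ⟨fun r => ∑ s, a s r * n s i, ?_⟩
      funext r
      rw [Matrix.mulVec_single_one, Matrix.col_apply, Matrix.mul_apply]
      push_cast
      refine Finset.sum_congr rfl fun s _ => ?_
      rw [Matrix.transpose_apply, ha, hn])
    refine ⟨w j, ?_⟩
    have := congrFun hw j
    rw [Matrix.mulVec_single_one, Matrix.col_apply, Matrix.transpose_apply] at this
    exact this
  have hfac : ∀ ν, eval (N.transpose.mulVec ν) (QP M.transpose Q) = eval ν Q := by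
    intro ν
    rw [eval_QP]
    have h1 := eval_add_ker hnoop hI hG hL hQ hkpos ν
      (M.transpose.mulVec (N.transpose.mulVec ν) - ν) (by
        rw [Matrix.mulVec_sub, Matrix.mulVec_mulVec, hI.ps, Matrix.one_mulVec, sub_self])
    rw [add_sub_cancel] at h1
    exact h1
  have hSν : ∀ ν', N.transpose.mulVec (M.transpose.mulVec ν') = ν' := by
    intro ν'
    rw [Matrix.mulVec_mulVec, hI.ps, Matrix.one_mulVec]
  have hdot : ∀ (y : Fin m → ℝ) (x' : Fin k → ℝ), dotProduct y (N.mulVec x') =
      dotProduct (N.transpose.mulVec y) x' := by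
    intro y x'
    rw [Matrix.dotProduct_mulVec, Matrix.mulVec_transpose]
  have hint : ∀ (X : F) (y : Fin m → ℝ), N.transpose.mulVec ((D X).mulVec y) =
      (DP D N.transpose M.transpose X).mulVec (N.transpose.mulVec y) := by
    intro X y
    rw [Matrix.mulVec_mulVec, Matrix.mulVec_mulVec, hI.com' X]
  have hexp : ∀ (X : F) (y : Fin m → ℝ), N.transpose.mulVec ((NormedSpace.exp (D X)).mulVec y) =
      (NormedSpace.exp (DP D N.transpose M.transpose X)).mulVec (N.transpose.mulVec y) := by
    intro X y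
    rw [Matrix.mulVec_mulVec, Matrix.mulVec_mulVec, exp_inter _ _ _ (hI.com' X)]
  refine ⟨k, DP D N.transpose M.transpose, GP G N.transpose, GP Γ N.transpose,
    QP M.transpose Q, rfl, hL, ?_, ?_⟩
  · refine ⟨hQ.hd, QP_hom _ hQ.hom, ?_, ?_, ?_⟩
    · intro h0
      apply hQ.ne
      apply MvPolynomial.funext
      intro ν
      rw [← hfac, h0, map_zero, map_zero]
    · rintro h ⟨g, hg, h1⟩ ν'
      rw [← hSν ν', Matrix.mulVec_mulVec, ← h1, ← Matrix.mulVec_mulVec, hfac, hfac, hQ.inv g hg]
    · intro ν' hν' y'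
      rw [← hSν ν', hfac] at hν'
      obtain ⟨X, c, hy⟩ := hQ.good _ hν' (M.transpose.mulVec y')
      refine ⟨X, c, ?_⟩
      have h1 := congrArg N.transpose.mulVec hy
      rw [hSν, Matrix.mulVec_add, hint, hSν, Matrix.mulVec_smul, hSν] at h1
      exact h1
  · intro hR ν hν U hU
    obtain ⟨X, hX, x', h1, h2⟩ := hR (N.transpose.mulVec ν) (by rw [hfac]; exact hν) U hU
    choose n hn using hNi
    have hx : (fun i => ((∑ j, (n i j : ℚ) * x' j : ℚ) : ℝ)) = N.mulVec (fun j => (x' j : ℝ)) := by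
      funext i
      push_cast
      simp only [Matrix.mulVec, dotProduct]
      exact Finset.sum_congr rfl fun j _ => by rw [hn]
    refine ⟨X, hX, fun i => ∑ j, (n i j : ℚ) * x' j, ?_, ?_⟩
    · rw [hx, hdot, hexp]
      exact h1
    · intro Y
      rw [hx, hdot, hint, hexp]
      exact h2 Y

theorem red : S_red := red_of (Pool.Agent.N353.LI.noop Pool.Agent.N692.LI.s_open)

end Pool.Agent.Run7.h957.LK
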