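import Pool.Agent.Run7.h314.LK.Iface
import Pool.Agent.N696.LI.Red

/-! Piece RED of project LK (MP_e3ee0c_gt), part 1: an integral basis of a rational subspace. -/

set_option autoImplicit false

namespace Pool.Agent.Run7.h957.LK

open Topology Filter Pool.Agent.N696.LI Pool.Agent.Run7.h314.LK

variable {m : ℕ}

/-- The integral points of a subspace. -/
def LL (u : Submodule ℝ (Fin m → ℝ)) : Submodule ℤ u where
  carrier := {x | ∃ z : Fin m → ℤ, (x : Fin m → ℝ) = fun i => (z i : ℝ)}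
  add_mem' := by
    rintro a b ⟨z, hz⟩ ⟨w, hw⟩
    refine ⟨z + w, ?_⟩
    funext i
    simp [hz, hw]
  zero_mem' := ⟨0, by funext i; simp⟩
  smul_mem' := by
    rintro c a ⟨z, hz⟩
    refine ⟨c • z, ?_⟩
    funext i
    have := congrFun hz i
    simp [this]

theorem mem_LL {u : Submodule ℝ (Fin m → ℝ)} {x : u} :
    x ∈ LL u ↔ ∃ z : Fin m → ℤ, (x : Fin m → ℝ) = fun i => (z i : ℝ) := Iff.rfl

instance (u : Submodule ℝ (Fin m → ℝ)) : DiscreteTopology (LL u) := by
  rw [discreteTopology_iff_isOpen_singleton_zero, Metric.isOpen_singleton_iff]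
  refine ⟨1, one_pos, ?_⟩
  rintro ⟨⟨y, hyu⟩, z, hz⟩ hy
  have hy' : dist y 0 < 1 := hy
  rw [dist_zero_right] at hy'
  have hz' : y = fun i => (z i : ℝ) := hz
  have : y = 0 := by
    funext i
    have h1 : ‖y i‖ < 1 := (norm_le_pi_norm y i).trans_lt hy'
    rw [hz'] at h1 ⊢
    simp only [Real.norm_eq_abs] at h1
    have h2 : |z i| < 1 := by exact_mod_cast h1
    have h3 : z i = 0 := Int.abs_lt_one_iff.1 h2
    simp [h3]
  apply Subtype.ext
  apply Subtype.ext
  exact this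

theorem exists_int_basis (u : Submodule ℝ (Fin m → ℝ))
    (hu : ∀ x ∈ u, x ∈ Submodule.span ℝ
      {y | y ∈ u ∧ ∃ z : Fin m → ℚ, y = fun i => (z i : ℝ)}) :
    ∃ (N : Matrix (Fin m) (Fin (Module.finrank ℝ u)) ℝ),
      (∀ i j, ∃ z : ℤ, N i j = z) ∧
      (∀ y, N.mulVec y ∈ u) ∧
      (∀ x ∈ u, ∃ y, x = N.mulVec y) ∧
      (∀ y, N.mulVec y = 0 → y = 0) ∧
      (∀ y, (∃ z : Fin m → ℤ, N.mulVec y = fun i => (z i : ℝ)) →
        ∃ w : Fin (Module.finrank ℝ u) → ℤ, y = fun i => (w i : ℝ)) := by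
  classical
  have hspan : Submodule.span ℝ (LL u : Set u) = ⊤ := by
    rw [eq_top_iff]
    rintro ⟨x, hx⟩ -
    have h1 := hu x hx
    have h2 : ∀ x (hx : x ∈ Submodule.span ℝ
      {y | y ∈ u ∧ ∃ z : Fin m → ℚ, y = fun i => (z i : ℝ)}),
        ∃ hxu : x ∈ u, (⟨x, hxu⟩ : u) ∈ Submodule.span ℝ (LL u : Set u) := by
      intro x hx
      induction hx using Submodule.span_induction with
      | mem x hx =>
        obtain ⟨hxu, z, hz⟩ := hx
        refine ⟨hxu, ?_⟩
        obtain ⟨n, w, hn, hw⟩ := exists_int_mul z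
        have hn' : (n : ℝ) ≠ 0 := by exact_mod_cast hn.ne'
        have h3 : (n : ℝ) • (⟨x, hxu⟩ : u) ∈ Submodule.span ℝ (LL u : Set u) := by
          refine Submodule.subset_span ⟨w, ?_⟩
          funext i
          simp only [Submodule.coe_smul, Pi.smul_apply, smul_eq_mul, hz]
          exact hw i
        have h4 := Submodule.smul_mem _ ((n : ℝ)⁻¹) h3
        rw [smul_smul, inv_mul_cancel₀ hn', one_smul] at h4
        exact h4
      | zero => exact ⟨u.zero_mem, Submodule.zero_mem _⟩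
      | add x y _ _ hx hy =>
        obtain ⟨hx1, hx2⟩ := hx
        obtain ⟨hy1, hy2⟩ := hy
        exact ⟨u.add_mem hx1 hy1, Submodule.add_mem _ hx2 hy2⟩
      | smul c x _ hx =>
        obtain ⟨hx1, hx2⟩ := hx
        exact ⟨u.smul_mem c hx1, Submodule.smul_mem _ c hx2⟩
    exact (h2 x h1).2
  have hZ : IsZLattice ℝ (LL u) := ⟨hspan⟩
  have hfree : Module.Free ℤ (LL u) := ZLattice.module_free ℝ (LL u)
  have hfin : Module.Finite ℤ (LL u) := ZLattice.module_finite ℝ (LL u)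
  have hrank : Module.finrank ℤ (LL u) = Module.finrank ℝ u := ZLattice.rank ℝ (LL u)
  let bZ : Module.Basis (Fin (Module.finrank ℝ u)) ℤ (LL u) :=
    (Module.finBasis ℤ (LL u)).reindex (finCongr hrank)
  let bR : Module.Basis (Fin (Module.finrank ℝ u)) ℝ u := bZ.ofZLatticeBasis ℝ (LL u)
  have hbR : ∀ j, bR j = bZ j := fun j => Module.Basis.ofZLatticeBasis_apply _ _ _ _
  let N : Matrix (Fin m) (Fin (Module.finrank ℝ u)) ℝ := Matrix.of fun i j => (bR j : Fin m → ℝ) i
  have hN : ∀ y, N.mulVec y = ((∑ j, y j • bR j : u) : Fin m → ℝ) := by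
    intro y
    funext i
    rw [Submodule.coe_sum, Finset.sum_apply]
    simp only [Matrix.mulVec, dotProduct, N, Matrix.of_apply, Submodule.coe_smul, Pi.smul_apply,
      smul_eq_mul]
    exact Finset.sum_congr rfl fun j _ => mul_comm _ _
  refine ⟨N, ?_, ?_, ?_, ?_, ?_⟩
  · intro i j
    obtain ⟨z, hz⟩ := (bZ j).2
    refine ⟨z i, ?_⟩
    simp only [N, Matrix.of_apply, hbR]
    exact congrFun hz i
  · intro y
    rw [hN]
    exact Submodule.coe_mem _
  · intro x hx
    refine ⟨fun j => bR.repr ⟨x, hx⟩ j, ?_⟩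
    rw [hN, bR.sum_repr]
  · intro y hy
    rw [hN] at hy
    have h1 : (∑ j, y j • bR j : u) = 0 := Subtype.ext hy
    funext j
    exact Fintype.linearIndependent_iff.1 bR.linearIndependent y h1 j
  · rintro y ⟨z, hz⟩
    let x : LL u := ⟨∑ j, y j • bR j, z, by rw [← hN]; exact hz⟩
    refine ⟨fun j => bZ.repr x j, ?_⟩
    funext j
    have h1 : bR.repr (x : u) j = bZ.repr x j :=
      Module.Basis.ofZLatticeBasis_repr_apply ℝ (LL u) bZ x j
    rw [← h1]
    have h2 : (x : u) = ∑ j, y j • bR j := rfl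
    rw [h2, bR.repr_sum_self]

end Pool.Agent.Run7.h957.LK
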