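import Pool.Agent.Run7.h957.LK.RED1

/-! Piece RED of project LK (MP_e3ee0c_gt), part 2: the quotient of a `LinGrp`. -/

set_option autoImplicit false

namespace Pool.Agent.Run7.h957.LK

open Topology Filter Pool.Agent.N696.LI Pool.Agent.Run7.h314.LK

variable {m k : ℕ}

open scoped Matrix.Norms.Operator in
theorem exp_inter (P : Matrix (Fin k) (Fin m) ℝ) (A : Mat m) (B : Mat k) (h : P * A = B * P) :
    P * NormedSpace.exp A = NormedSpace.exp B * P := by
  have hA := NormedSpace.exp_series_hasSum_exp' (𝕂 := ℝ) A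
  have hB := NormedSpace.exp_series_hasSum_exp' (𝕂 := ℝ) B
  let f : Mat m →+ Matrix (Fin k) (Fin m) ℝ :=
    { toFun := fun A => P * A, map_zero' := Matrix.mul_zero _, map_add' := Matrix.mul_add _ }
  have hf : Continuous f := continuous_const.matrix_mul continuous_id
  let g : Mat k →+ Matrix (Fin k) (Fin m) ℝ :=
    { toFun := fun B => B * P, map_zero' := Matrix.zero_mul _,
      map_add' := fun a b => Matrix.add_mul _ _ _ }
  have hg : Continuous g := continuous_id.matrix_mul continuous_const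
  have h1 := hA.map f hf
  have h2 := hB.map g hg
  have hpow : ∀ n : ℕ, P * A ^ n = B ^ n * P := by
    intro n
    induction n with
    | zero => simp
    | succ n ih => rw [pow_succ, ← Matrix.mul_assoc, ih, Matrix.mul_assoc, h, ← Matrix.mul_assoc,
        ← pow_succ]
  have e : (f ∘ fun n : ℕ => ((n.factorial : ℝ)⁻¹) • A ^ n) =
      (g ∘ fun n : ℕ => ((n.factorial : ℝ)⁻¹) • B ^ n) := by
    funext n
    show P * (((n.factorial : ℝ)⁻¹) • A ^ n) = (((n.factorial : ℝ)⁻¹) • B ^ n) * P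
    rw [Matrix.mul_smul, hpow, Matrix.smul_mul]
  rw [e] at h1
  exact h1.unique h2

variable {F : Type} [NormedAddCommGroup F] [NormedSpace ℝ F]

/-- `P` intertwines `D X` with `P * D X * S`, and `S` is a right inverse of `P`. -/
structure Inter (D : F →ₗ[ℝ] Mat m) (P : Matrix (Fin k) (Fin m) ℝ)
    (S : Matrix (Fin m) (Fin k) ℝ) : Prop where
  ps : P * S = 1
  com : ∀ X, P * D X = P * D X * S * P

/-- The induced map. -/
def DP (D : F →ₗ[ℝ] Mat m) (P : Matrix (Fin k) (Fin m) ℝ) (S : Matrix (Fin m) (Fin k) ℝ) :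
    F →ₗ[ℝ] Mat k where
  toFun X := P * D X * S
  map_add' X Y := by rw [map_add, Matrix.mul_add, Matrix.add_mul]
  map_smul' c X := by rw [map_smul, Matrix.mul_smul, Matrix.smul_mul]; rfl

theorem DP_apply (D : F →ₗ[ℝ] Mat m) (P : Matrix (Fin k) (Fin m) ℝ)
    (S : Matrix (Fin m) (Fin k) ℝ) (X : F) : DP D P S X = P * D X * S := rfl

theorem inter_inv {P : Matrix (Fin k) (Fin m) ℝ} {g : (Mat m)ˣ} {h : (Mat k)ˣ}
    (hg : P * (g : Mat m) = (h : Mat k) * P) :
    P * ((g⁻¹ : (Mat m)ˣ) : Mat m) = ((h⁻¹ : (Mat k)ˣ) : Mat k) * P := by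
  have h1 : ((h⁻¹ : (Mat k)ˣ) : Mat k) * (P * (g : Mat m)) * ((g⁻¹ : (Mat m)ˣ) : Mat m) =
      ((h⁻¹ : (Mat k)ˣ) : Mat k) * ((h : Mat k) * P) * ((g⁻¹ : (Mat m)ˣ) : Mat m) := by
    rw [hg]
  have e1 : (g : Mat m) * ((g⁻¹ : (Mat m)ˣ) : Mat m) = 1 := Units.mul_inv g
  have e2 : ((h⁻¹ : (Mat k)ˣ) : Mat k) * (h : Mat k) = 1 := Units.inv_mul h
  rw [Matrix.mul_assoc, Matrix.mul_assoc P, e1, Matrix.mul_one, ← Matrix.mul_assoc _ (h : Mat k),
    e2, Matrix.one_mul] at h1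
  exact h1.symm

theorem inter_mul {P : Matrix (Fin k) (Fin m) ℝ} {g g' : (Mat m)ˣ} {h h' : (Mat k)ˣ}
    (hg : P * (g : Mat m) = (h : Mat k) * P) (hg' : P * (g' : Mat m) = (h' : Mat k) * P) :
    P * ((g * g' : (Mat m)ˣ) : Mat m) = ((h * h' : (Mat k)ˣ) : Mat k) * P := by
  rw [Units.val_mul, Units.val_mul, ← Matrix.mul_assoc, hg, Matrix.mul_assoc, hg',
    ← Matrix.mul_assoc]

/-- The induced group. -/
def GP (G : Subgroup (Mat m)ˣ) (P : Matrix (Fin k) (Fin m) ℝ) : Subgroup (Mat k)ˣ where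
  carrier := {h | ∃ g ∈ G, P * (g : Mat m) = (h : Mat k) * P}
  one_mem' := ⟨1, G.one_mem, by simp⟩
  mul_mem' := by
    rintro a b ⟨g, hg, h1⟩ ⟨g', hg', h2⟩
    exact ⟨g * g', G.mul_mem hg hg', inter_mul h1 h2⟩
  inv_mem' := by
    rintro a ⟨g, hg, h1⟩
    exact ⟨g⁻¹, G.inv_mem hg, inter_inv h1⟩

theorem mem_GP {G : Subgroup (Mat m)ˣ} {P : Matrix (Fin k) (Fin m) ℝ} {h : (Mat k)ˣ} :
    h ∈ GP G P ↔ ∃ g ∈ G, P * (g : Mat m) = (h : Mat k) * P := Iff.rfl

theorem inter_val {P : Matrix (Fin k) (Fin m) ℝ} {S : Matrix (Fin m) (Fin k) ℝ} (hps : P * S = 1)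
    {g : Mat m} {h : Mat k} (hg : P * g = h * P) : h = P * g * S := by
  rw [hg, Matrix.mul_assoc, hps, Matrix.mul_one]

theorem inter_unique {P : Matrix (Fin k) (Fin m) ℝ} {S : Matrix (Fin m) (Fin k) ℝ}
    (hps : P * S = 1) {g : Mat m} {h h' : (Mat k)ˣ} (hg : P * g = (h : Mat k) * P)
    (hg' : P * g = (h' : Mat k) * P) : h = h' :=
  Units.ext (by rw [inter_val hps hg, inter_val hps hg'])

variable {D : F →ₗ[ℝ] Mat m} {P : Matrix (Fin k) (Fin m) ℝ} {S : Matrix (Fin m) (Fin k) ℝ}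

theorem Inter.com' (hI : Inter D P S) (X : F) : P * D X = DP D P S X * P := by
  rw [DP_apply]; exact hI.com X

theorem exists_inter (hI : Inter D P S) {G Γ : Subgroup (Mat m)ˣ} (hL : LinGrp D G Γ)
    (g : (Mat m)ˣ) (hg : g ∈ G) :
    ∃ h ∈ Subgroup.closure {h : (Mat k)ˣ | ∃ X, (h : Mat k) = NormedSpace.exp (DP D P S X)},
      P * (g : Mat m) = (h : Mat k) * P := by
  have hg' := hL.gen hg
  clear hg
  induction hg' using Subgroup.closure_induction with
  | mem g hg =>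
    obtain ⟨X, hX⟩ := hg
    refine ⟨(Matrix.isUnit_exp (DP D P S X)).unit, Subgroup.subset_closure ⟨X, rfl⟩, ?_⟩
    rw [IsUnit.unit_spec, hX]
    exact exp_inter P _ _ (hI.com' X)
  | one => exact ⟨1, Subgroup.one_mem _, by simp⟩
  | mul a b _ _ ha hb =>
    obtain ⟨h, hh, h1⟩ := ha
    obtain ⟨h', hh', h1'⟩ := hb
    exact ⟨h * h', Subgroup.mul_mem _ hh hh', inter_mul h1 h1'⟩
  | inv a _ ha =>
    obtain ⟨h, hh, h1⟩ := ha
    exact ⟨h⁻¹, Subgroup.inv_mem _ hh, inter_inv h1⟩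

theorem linGrp_quot (hI : Inter D P S) {G Γ : Subgroup (Mat m)ˣ} (hL : LinGrp D G Γ)
    (hint : ∀ A : Mat m, (∀ i j, ∃ z : ℤ, A i j = z) → P * A = P * A * S * P →
      ∀ i j, ∃ z : ℤ, (P * A * S) i j = z) :
    LinGrp (DP D P S) (GP G P) (GP Γ P) where
  lie X Y := by
    obtain ⟨Z, hZ⟩ := hL.lie X Y
    refine ⟨Z, ?_⟩
    have e1 : DP D P S X * DP D P S Y = P * (D X * D Y) * S := by
      rw [DP_apply D P S Y, ← Matrix.mul_assoc, ← Matrix.mul_assoc, ← hI.com' X]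
      simp only [Matrix.mul_assoc]
    have e2 : DP D P S Y * DP D P S X = P * (D Y * D X) * S := by
      rw [DP_apply D P S X, ← Matrix.mul_assoc, ← Matrix.mul_assoc, ← hI.com' Y]
      simp only [Matrix.mul_assoc]
    rw [e1, e2, DP_apply, hZ, Matrix.mul_sub, Matrix.sub_mul]
  exp_mem X := by
    obtain ⟨g, hg, hX⟩ := hL.exp_mem X
    refine ⟨(Matrix.isUnit_exp (DP D P S X)).unit, ⟨g, hg, ?_⟩, rfl⟩
    rw [IsUnit.unit_spec, hX]
    exact exp_inter P _ _ (hI.com' X)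
  gen := by
    rintro h ⟨g, hg, h1⟩
    obtain ⟨h', hh', h2⟩ := exists_inter hI hL g hg
    rw [inter_unique hI.ps h1 h2]
    exact hh'
  conj := by
    rintro h ⟨g, hg, h1⟩ X
    obtain ⟨Y, hY⟩ := hL.conj g hg X
    refine ⟨Y, ?_⟩
    have h2 := inter_inv h1
    have e : P * D Y = (h : Mat k) * DP D P S X * ((h⁻¹ : (Mat k)ˣ) : Mat k) * P := by
      rw [hY, ← Matrix.mul_assoc, ← Matrix.mul_assoc, h1, Matrix.mul_assoc (h : Mat k) P,
        hI.com' X, Matrix.mul_assoc, Matrix.mul_assoc, Matrix.mul_assoc, h2]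
      simp only [Matrix.mul_assoc]
    rw [DP_apply, e, Matrix.mul_assoc, hI.ps, Matrix.mul_one]
  le := by
    rintro h ⟨g, hg, h1⟩
    exact ⟨g, hL.le hg, h1⟩
  int := by
    rintro h ⟨g, hg, h1⟩ i j
    rw [inter_val hI.ps h1]
    refine hint _ (hL.int g hg) ?_ i j
    rw [← inter_val hI.ps h1, h1]
  cocompact := by
    obtain ⟨K, hK, hKG, hc⟩ := hL.cocompact
    have hex : ∀ g : K, ∃ h : (Mat k)ˣ, P * ((g : (Mat m)ˣ) : Mat m) = (h : Mat k) * P := by
      intro g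
      obtain ⟨h, -, h1⟩ := exists_inter hI hL g (hKG g.2)
      exact ⟨h, h1⟩
    choose f hf using hex
    have hfc : Continuous f := by
      rw [Units.continuous_iff]
      constructor
      · have : (Units.val ∘ f) = fun g : K => P * ((g : (Mat m)ˣ) : Mat m) * S := by
          funext g
          exact inter_val hI.ps (hf g)
        rw [this]
        exact (continuous_const.matrix_mul
          (Units.continuous_val.comp continuous_subtype_val)).matrix_mul continuous_const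
      · have : (fun g : K => (((f g)⁻¹ : (Mat k)ˣ) : Mat k)) =
            fun g : K => P * ((((g : (Mat m)ˣ)⁻¹ : (Mat m)ˣ)) : Mat m) * S := by
          funext g
          exact inter_val hI.ps (inter_inv (hf g))
        rw [this]
        exact (continuous_const.matrix_mul
          (Units.continuous_val.comp (continuous_inv.comp continuous_subtype_val))).matrix_mul
            continuous_const
    have hcs : CompactSpace K := isCompact_iff_compactSpace.1 hK
    refine ⟨Set.range f, isCompact_range hfc, ?_, ?_⟩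
    · rintro _ ⟨g, rfl⟩
      exact ⟨g, hKG g.2, hf g⟩
    · rintro h ⟨g, hg, h1⟩
      obtain ⟨γ, hγ, hγK⟩ := hc g hg
      obtain ⟨γ', -, h2⟩ := exists_inter hI hL γ (hL.le hγ)
      refine ⟨γ', ⟨γ, hγ, h2⟩, ⟨γ⁻¹ * g, hγK⟩, ?_⟩
      exact inter_unique hI.ps (hf _) (inter_mul (inter_inv h2) h1)

end Pool.Agent.Run7.h957.LK
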